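import Pool.Agent.L5helper11.MD.Quad

/-!
# Almost primes `m ^ 2 + 1` with prescribed decimal digits of `m`

At most `N / 12` of the `N` decimal digits of `m`, at arbitrary places, may be prescribed in an arbitrary way (only the
last digit, if it is prescribed, has to be `0`, `4` or `6`, as otherwise `m ^ 2 + 1` is divisible by `2` or `5`); then
`m ^ 2 + 1` has at most three prime factors, all of them large, for at least `c 10 ^ (N - |P|) / N` of the
`10 ^ (N - |P|)` numbers `m` with these digits, which is the right order of magnitude.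

Method.  The numbers `m` with the prescribed digits have the level of distribution `10 ^ (0.785 N)` along the roots of
`X ^ 2 + 1`: an `L ^ 1` bound for their exponential sum on the Farey fractions (the free digits between two prescribed
ones form a geometric series), windows of the right length with few prescribed places for the denominators between
`N ^ 5.1` and `10 ^ (N / 4)`, and a saving in `N / log N` windows for the smaller denominators; then Richert's weights,
in the form of `Pool.Agent.Y882.KW` (helper882).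
-/

set_option autoImplicit false

namespace Pool.Agent.Results.MP_f1a94e_nt.PrescribedDigits

open Finset Filter
open Pool.Agent.L5helper11.MD

/-- There is `c > 0` such that for all large `N`, every set `P` of at most `N / 12` of the places `0, …, N - 1` and all
decimal digits `e i`, `i ∈ P` (with `e 0 ∈ {0, 4, 6}` if `0 ∈ P`), at least `c * 10 ^ (N - |P|) / N` of the integers
`0 ≤ m < 10 ^ N` whose decimal digit at the place `i` (the coefficient of `10 ^ i`) is `e i` for all `i ∈ P` are such
that `m ^ 2 + 1` has at most three prime factors counted with multiplicity, all of them at least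
`10 ^ (39 N / 200)`. -/
theorem result : ∃ c : ℝ, 0 < c ∧ ∀ᶠ N : ℕ in atTop, ∀ P : Finset ℕ, P ⊆ range N → 12 * P.card ≤ N →
    ∀ e : ℕ → ℕ, (∀ i ∈ P, e i ≤ 9) → (0 ∈ P → e 0 = 0 ∨ e 0 = 4 ∨ e 0 = 6) →
    c * 10 ^ (N - P.card) / N ≤ (((range (10 ^ N)).filter (fun m => (∀ i ∈ P, m / 10 ^ i % 10 = e i) ∧
      (m ^ 2 + 1).primeFactorsList.length ≤ 3 ∧
      ∀ p ∈ (m ^ 2 + 1).primeFactorsList, (10 : ℝ) ^ (39 / 200 * (N : ℝ)) ≤ ((p : ℕ) : ℝ))).card : ℝ) := by
  classical
  obtain ⟨δ, hδ, H⟩ := quadD
  refine ⟨δ / 10, by positivity, ?_⟩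
  filter_upwards [H, eventually_ge_atTop 1] with N hN hN1 P hPN hP e he he0
  set P' : ℕ → Prop := fun i => i ∈ P ∨ i = 0 with hP'
  set e' : ℕ → ℕ := fun i => if i ∈ P then e i else 0 with he'
  have hnp : np N P' ≤ P.card + 1 := by
    refine (np_le_card (S := insert 0 P) ?_).trans (card_insert_le _ _)
    intro i _ hi
    rw [mem_insert]
    exact hi.symm
  have hfr : N ≤ fr N P' + P.card + 1 := by
    have := np_add_fr N P'
    omega
  have h := hN P' e' (by
    intro i
    rw [he']
    simp only
    split_ifs with h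
    · have := he i h
      omega
    · norm_num) (by omega) (Or.inr rfl) (by
    rw [he']
    simp only
    split_ifs with h
    · exact he0 h
    · exact Or.inl rfl)
  have hN0 : (0 : ℝ) < N := by exact_mod_cast hN1
  have h1 : δ / 10 * 10 ^ (N - P.card) / N ≤ δ * 10 ^ fr N P' / N := by
    apply div_le_div_of_nonneg_right _ hN0.le
    have h2 : (10 : ℝ) ^ (N - P.card) ≤ 10 ^ (fr N P' + 1) := pow_le_pow_right₀ (by norm_num) (by omega)
    rw [pow_succ] at h2
    nlinarith
  refine h1.trans (h.trans ?_)
  have hsub : ((Cs N P' e').filter (fun n : ℕ => (n ^ 2 + 1).primeFactorsList.length ≤ 3 ∧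
      ∀ p : ℕ, p.Prime → p ∣ n ^ 2 + 1 → (((10 ^ N : ℕ) : ℝ)) ^ (39 / 50 / 4 : ℝ) ≤ p)) ⊆
      ((range (10 ^ N)).filter (fun m => (∀ i ∈ P, m / 10 ^ i % 10 = e i) ∧
      (m ^ 2 + 1).primeFactorsList.length ≤ 3 ∧
      ∀ p ∈ (m ^ 2 + 1).primeFactorsList, (10 : ℝ) ^ (39 / 200 * (N : ℝ)) ≤ ((p : ℕ) : ℝ))) := by
    intro m hm
    rw [mem_filter] at hm ⊢
    obtain ⟨hmC, h3, h4⟩ := hm
    rw [mem_Cs] at hmC
    refine ⟨mem_range.2 hmC.1, ?_, h3, ?_⟩
    · intro i hi
      have h5 := hmC.2 i (mem_range.1 (hPN hi)) (Or.inl hi)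
      rw [h5, he']
      simp only
      rw [if_pos hi]
    · intro p hp
      rw [Nat.mem_primeFactorsList (by omega)] at hp
      have h5 := h4 p hp.1 hp.2
      refine le_trans (le_of_eq ?_) h5
      push_cast
      rw [← Real.rpow_natCast, ← Real.rpow_mul (by norm_num)]
      congr 1
      ring
  exact_mod_cast card_le_card hsub

end Pool.Agent.Results.MP_f1a94e_nt.PrescribedDigits
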