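import Pool.Agent.L5helper45.PT.Comp

set_option autoImplicit false

/-!
# Sets of translates without primes `m^2+1`

Let `f` be an irreducible non-constant polynomial with integer coefficients. For `T` between a
constant and `(log X)/2`, every set `B` of at most `c log X log T` shifts and every interval of
length `X`, at least `X exp(-T)` of the integers `n` of the interval are such that all the values
`f(n+b)`, `b` in `B`, have a proper prime factor `<= X^(1/log T)`.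
-/

namespace Pool.Agent.Results.MP_f1a94e_nt.PrimeFreeTranslates

open Polynomial Finset

open scoped Classical in
theorem result :
    (∀ f : ℤ[X], Irreducible f → 0 < f.natDegree → ∀ D : ℕ,
      ∃ c : ℝ, 0 < c ∧ ∃ T₀ X₀ : ℝ, ∀ X T : ℝ, X₀ ≤ X → T₀ ≤ T → T ≤ Real.log X / 2 →
        ∀ B : Finset ℤ, (B.card : ℝ) ≤ c * Real.log X * Real.log T →
        (∀ b ∈ B, |(b:ℝ)| ≤ Real.exp ((Real.log X) ^ D)) → ∀ M : ℤ,
        X * Real.exp (-T) ≤ (((Finset.Ioc M (M + ⌊X⌋)).filter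
          (fun n : ℤ => ∀ b ∈ B, ∃ p : ℕ, p.Prime ∧ (p:ℝ) ≤ X ^ (1 / Real.log T) ∧
            (p:ℤ) ∣ f.eval (n + b) ∧ (p:ℤ) < |f.eval (n + b)|)).card : ℝ)) ∧
    (∀ (D : ℕ) (lam : ℝ), ∃ ε : ℝ, 0 < ε ∧ ∃ X₀ : ℝ, ∀ X : ℝ, X₀ ≤ X →
      ∀ B : Finset ℤ, (B.card : ℝ) ≤ lam * Real.log X →
      (∀ b ∈ B, |(b:ℝ)| ≤ Real.exp ((Real.log X) ^ D)) → ∀ M : ℤ,
      ε * X ≤ (((Finset.Ioc M (M + ⌊X⌋)).filter
        (fun n : ℤ => ∀ b ∈ B, ¬ Nat.Prime ((n + b) ^ 2 + 1).natAbs)).card : ℝ)) ∧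
    (∀ D : ℕ, ∃ c : ℝ, 0 < c ∧ ∀ η : ℝ, 0 < η → ∃ X₀ : ℝ, ∀ X : ℝ, X₀ ≤ X →
      ∀ B : Finset ℤ, (B.card : ℝ) ≤ c * Real.log X * Real.log (Real.log X) →
      (∀ b ∈ B, |(b:ℝ)| ≤ Real.exp ((Real.log X) ^ D)) → ∀ M : ℤ,
      X ^ (1 - η) ≤ (((Finset.Ioc M (M + ⌊X⌋)).filter
        (fun n : ℤ => ∀ b ∈ B, ¬ Nat.Prime ((n + b) ^ 2 + 1).natAbs)).card : ℝ)) := by
  refine ⟨fun f hf hd D => Pool.Agent.L5helper45.PT.mainT f hf hd D, fun D lam => ?_, fun D => ?_⟩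
  · obtain ⟨ε, hε, X₀, h⟩ := Pool.Agent.L5helper45.PT.sq_pos D lam
    refine ⟨ε, hε, X₀, fun X hX B hB hBH M => (h X hX B hB hBH M).trans (le_of_eq ?_)⟩
    congr!
  · obtain ⟨c, hc, h⟩ := Pool.Agent.L5helper45.PT.sq_long D
    refine ⟨c, hc, fun η hη => ?_⟩
    obtain ⟨X₀, h⟩ := h η hη
    refine ⟨X₀, fun X hX B hB hBH M => (h X hX B hB hBH M).trans (le_of_eq ?_)⟩
    congr!

end Pool.Agent.Results.MP_f1a94e_nt.PrimeFreeTranslates
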