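import Pool.Agent.L5helper2.RS.S11
import Pool.Agent.L5helper2.BH.A9

/-! MP_f1a94e_nt (helper2): the law of Hardy-Littlewood and Bateman-Horn for almost every profinite translate of
`m ^ 2 + 1`, and of every polynomial, at once, with square-root error terms. -/

set_option autoImplicit false

namespace Pool.Agent.Results.MP_f1a94e_nt.RandomTranslates

open Finset Polynomial MeasureTheory ProbabilityTheory Filter Topology

/-- the number of the residues `r` modulo `p` with `f(r) ≡ b` modulo `p` -/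
def rho (f : ℤ[X]) (b : ℕ) (p : ℕ) : ℕ := #((range p).filter fun r : ℕ => f.eval (r : ℤ) ≡ (b : ℤ) [ZMOD p])

/-- `f(m) - c` has no prime factor up to `z`, where `b p` is the residue of `c` modulo `p` -/
def Free (f : ℤ[X]) (b : ℕ → ℕ) (z : ℝ) (m : ℕ) : Prop :=
  ∀ p : ℕ, p.Prime → (p : ℝ) ≤ z → ¬ f.eval (m : ℤ) ≡ (b p : ℤ) [ZMOD p]

open Classical in
theorem result {Ω : Type} [MeasurableSpace Ω] (P : Measure Ω) [IsProbabilityMeasure P] (a : ℕ → Ω → ℕ)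
    (hmeas : ∀ p, Measurable (a p)) (hind : iIndepFun (fun p : Nat.Primes => a p) P)
    (hunif : ∀ p r : ℕ, p.Prime → r < p → P.real {ω | a p ω = r} = 1 / p) (θ : ℝ) (hθ : 0 < θ) :
    ∀ᵐ ω ∂P, ∀ f : ℤ[X], 1 ≤ f.natDegree →
      (∀ (A : ℕ) (ε : ℝ), 0 < ε → ∃ x0 : ℕ, ∀ x : ℕ, x0 ≤ x → ∀ z : ℕ, z ≤ x ^ A →
        |(#((Icc 1 x).filter fun m : ℕ => Free f (fun p => a p ω) z m) : ℝ) -
          x * ∏ p ∈ (Icc 1 z).filter Nat.Prime, (1 - (rho f (a p ω) p : ℝ) / p)| ≤ (x : ℝ) ^ (1 / 2 + ε)) ∧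
      (∀ ε : ℝ, 0 < ε → ∃ x0 : ℕ, ∀ x : ℕ, x0 ≤ x →
        |(#((Icc 1 x).filter fun m : ℕ => Free f (fun p => a p ω) (|((f.eval (m : ℤ) : ℤ) : ℝ)| ^ θ) m) : ℝ) -
          ∑ m ∈ Icc 1 x, ∏ p ∈ (Icc 1 ⌊|((f.eval (m : ℤ) : ℤ) : ℝ)| ^ θ⌋₊).filter Nat.Prime,
            (1 - (rho f (a p ω) p : ℝ) / p)| ≤ (x : ℝ) ^ (1 / 2 + ε)) ∧
      ∃ C : ℝ, 0 ≤ C ∧
        (0 < C ↔ ∀ p : ℕ, p.Prime → ∃ r : ℕ, ¬ f.eval (r : ℤ) ≡ (a p ω : ℤ) [ZMOD p]) ∧
        Tendsto (fun z : ℕ => ∏ p ∈ (Icc 1 z).filter Nat.Prime,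
          (1 - (rho f (a p ω) p : ℝ) / p) / (1 - 1 / (p : ℝ))) atTop (𝓝 C) ∧
        Tendsto (fun x : ℕ => (#((Icc 1 x).filter fun m : ℕ =>
            Free f (fun p => a p ω) (|((f.eval (m : ℤ) : ℤ) : ℝ)| ^ θ) m) : ℝ) * Real.log x / x) atTop
          (𝓝 (C * (Real.exp (-Real.eulerMascheroniConstant) / (θ * f.natDegree)))) := by
  have hind2 : iIndepFun (fun q : Nat.Primes × Fin 1 => a q.1) P := by
    have hinj : Function.Injective (fun q : Nat.Primes × Fin 1 => q.1) := by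
      rintro ⟨p, i⟩ ⟨q, j⟩ h
      simp only at h
      rw [h, Subsingleton.elim i j]
    exact hind.precomp hinj
  have h1 := L5helper2.RS.sqrt_law (k := 1) le_rfl (P := P) (fun p (_ : Fin 1) => a p) (fun p _ => hmeas p) hind2
    (fun p _ r hp hr => hunif p r hp hr)
  have hS : L5helper2.BH.Sys P a := ⟨inferInstance, hmeas, hind, hunif⟩
  have h2 := L5helper2.BH.nat_all (k := 1) hS hθ
  have hcong : ∀ (p : ℕ) (u v : ℤ), u ≡ v [ZMOD p] ↔ (p : ℤ) ∣ u - v := L5helper2.RS.modEq_dvd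
  have hrho : ∀ (f : ℤ[X]) (b p : ℕ),
      (range p).filter (fun r : ℕ => ∃ _ : Fin 1, f.eval (r : ℤ) ≡ (b : ℤ) [ZMOD p]) =
      (range p).filter (fun r : ℕ => f.eval (r : ℤ) ≡ (b : ℤ) [ZMOD p]) := by
    intro f b p
    refine filter_congr fun r _ => ?_
    exact exists_const _
  filter_upwards [h1, h2] with ω hω1 hω2 f hf
  obtain ⟨hA, C, hC0, hC1, hC2, hC3⟩ := hω2 (fun _ => f) (fun _ => hf) (fun i j _ => Subsingleton.elim i j)
  -- the counts
  have hcount : ∀ x : ℕ, ∑ n ∈ Ioc 0 x, L5helper2.BH.Fn (fun _ : Fin 1 => f) (L5helper2.BH.lev θ (fun _ => f) n) a n ω =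
      (#((Icc 1 x).filter fun m : ℕ => Free f (fun p => a p ω) (|((f.eval (m : ℤ) : ℤ) : ℝ)| ^ θ) m) : ℝ) := by
    intro x
    rw [L5helper2.BH.sum_Fn]
    have e2 : (Icc 1 x).filter (fun m : ℕ => ∀ _ : Fin 1, ∀ p : ℕ, p.Prime →
          (p : ℝ) ≤ |((f.eval (m : ℤ) : ℤ) : ℝ)| ^ θ → ¬ f.eval (m : ℤ) ≡ (a p ω : ℤ) [ZMOD p]) =
        (Icc 1 x).filter (fun m : ℕ => Free f (fun p => a p ω) (|((f.eval (m : ℤ) : ℤ) : ℝ)| ^ θ) m) := by
      refine filter_congr fun m _ => ?_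
      exact forall_const _
    rw [e2]
  have hWn : ∀ x : ℕ, ∑ n ∈ Ioc 0 x, L5helper2.BH.Wn (fun _ : Fin 1 => f) (L5helper2.BH.lev θ (fun _ => f) n) a ω =
      ∑ m ∈ Icc 1 x, ∏ p ∈ (Icc 1 ⌊|((f.eval (m : ℤ) : ℤ) : ℝ)| ^ θ⌋₊).filter Nat.Prime,
        (1 - (rho f (a p ω) p : ℝ) / p) := by
    intro x
    refine sum_congr rfl fun m _ => ?_
    rw [L5helper2.BH.Wn_eq (fun _ : Fin 1 => f) (z := L5helper2.BH.lev θ (fun _ => f) m)
      (M := ⌊|((f.eval (m : ℤ) : ℤ) : ℝ)| ^ θ⌋₊) (fun _ => le_rfl)]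
    refine prod_congr rfl fun p hp => ?_
    have hpM := (L5helper2.BH.mem_pr.1 hp).1
    have e : L5helper2.BH.rh (fun _ : Fin 1 => f) (L5helper2.BH.lev θ (fun _ => f) m) p (a p ω) = rho f (a p ω) p := by
      rw [L5helper2.BH.rh_full (fun _ : Fin 1 => f) (z := L5helper2.BH.lev θ (fun _ => f) m) (fun _ => hpM)]
      unfold L5helper2.BH.rF rho
      rw [← hrho]
      congr 1
      refine filter_congr fun r _ => exists_congr fun _ => ?_
      rw [hcong]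
    rw [e]
  have hrF : ∀ p : ℕ, L5helper2.BH.rF (fun _ : Fin 1 => f) p (a p ω) = rho f (a p ω) p := by
    intro p
    unfold L5helper2.BH.rF rho
    rw [← hrho]
    congr 1
    refine filter_congr fun r _ => exists_congr fun _ => ?_
    rw [hcong]
  refine ⟨fun A ε hε => ?_, fun ε hε => ?_, C, hC0, ?_, ?_, ?_⟩
  · obtain ⟨x0, hx0⟩ := hω1 (fun _ => f) (fun _ => hf) A ε hε
    refine ⟨x0, fun x hx z hz => ?_⟩
    have h3 := hx0 x hx z hz
    have e1 : (Icc 1 x).filter (fun m : ℕ => ∀ p : ℕ, p ≤ z → p.Prime →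
          ∀ _ : Fin 1, ¬ f.eval (m : ℤ) ≡ (a p ω : ℤ) [ZMOD p]) =
        (Icc 1 x).filter (fun m : ℕ => Free f (fun p => a p ω) z m) := by
      refine filter_congr fun m _ => ?_
      constructor
      · intro h p hp hz
        exact h p (by exact_mod_cast hz) hp 0
      · intro h p hz hp _
        exact h p hp (by exact_mod_cast hz)
    have e2 : ∀ p ∈ (Icc 1 z).filter Nat.Prime,
        (1 - (#((range p).filter fun r : ℕ => ∃ _ : Fin 1, f.eval (r : ℤ) ≡ (a p ω : ℤ) [ZMOD p]) : ℝ) / p) =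
        1 - (rho f (a p ω) p : ℝ) / p := by
      intro p _
      rw [hrho]
      rfl
    rw [e1, prod_congr rfl e2] at h3
    exact h3
  · obtain ⟨x0, hx0⟩ := hA ε hε
    refine ⟨x0, fun x hx => ?_⟩
    have h3 := hx0 x hx
    rwa [hcount, hWn] at h3
  · rw [hC1]
    refine forall_congr' fun p => imp_congr_right fun _ => exists_congr fun r => ?_
    rw [forall_const, hcong]
  · refine hC2.congr fun z => ?_
    unfold L5helper2.BH.tF L5helper2.BH.wF L5helper2.BH.vF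
    rw [pow_one, ← prod_div_distrib]
    refine prod_congr rfl fun p _ => ?_
    rw [hrF]
  · have e1 : C * ∏ _i : Fin 1, (Real.exp (-Real.eulerMascheroniConstant) / (θ * f.natDegree)) =
        C * (Real.exp (-Real.eulerMascheroniConstant) / (θ * f.natDegree)) := by
      simp
    rw [e1] at hC3
    refine hC3.congr fun x => ?_
    rw [pow_one, hcount]

end Pool.Agent.Results.MP_f1a94e_nt.RandomTranslates
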