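import Pool.Agent.L5helper86.UL.Buni6

/-! MP_f1a94e_nt (helper86): the asymptotic formula of the problem, with its constant, for a semi-random set in place of the
primes: the sieve of Eratosthenes is exact for the primes `p ≤ w |n|` and random for the primes `w |n| < p ≤ |n| ^ θ`. -/

set_option autoImplicit false

namespace Pool.Agent.Results.MP_f1a94e_nt.SemiRandomSieve

open Finset Polynomial MeasureTheory ProbabilityTheory Filter Topology

/-- the semi-random set `R`: the nonzero integers `n` without prime factors `p ≤ w |n|` and with `n ≢ a p` modulo `p` for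
the primes `w |n| < p ≤ |n| ^ θ` -/
def InR (w : ℕ → ℝ) (θ : ℝ) (a : ℕ → ℕ) (n : ℤ) : Prop :=
  n ≠ 0 ∧ ∀ p : ℕ, p.Prime → ((p : ℝ) ≤ w n.natAbs → ¬ (p : ℤ) ∣ n) ∧
    (w n.natAbs < p → (p : ℝ) ≤ (n.natAbs : ℝ) ^ θ → ¬ n ≡ a p [ZMOD p])

open Classical in
/-- the number of the integers `m` in `(u, u + H]` with `f(m)` in `R` -/
noncomputable def count (w : ℕ → ℝ) (θ : ℝ) (a : ℕ → ℕ) (f : ℤ[X]) (u : ℤ) (H : ℕ) : ℕ :=
  #((Ioc u (u + H)).filter fun m => InR w θ a (f.eval m))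

/-- the number of the zeros of `f` modulo `p` -/
noncomputable def rho (f : ℤ[X]) (p : ℕ) : ℕ := #((range p).filter fun t : ℕ => (p : ℤ) ∣ f.eval (t : ℤ))

/-- the partial products `∏_{p ≤ y} (1 - ρ(p) / p) / (1 - 1 / p)` of the constant of Bateman and Horn -/
noncomputable def partialBH (f : ℤ[X]) (y : ℕ) : ℝ :=
  ∏ p ∈ (Icc 1 y).filter Nat.Prime, (1 - (rho f p : ℝ) / p) / (1 - 1 / (p : ℝ))

/-- the partial products `∏_{2 < p ≤ y} (1 - (-1) ^ ((p - 1) / 2) / (p - 1))` of the constant of the problem -/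
noncomputable def partialC (y : ℕ) : ℝ :=
  ∏ p ∈ (Icc 3 y).filter Nat.Prime, (1 - (-1 : ℝ) ^ ((p - 1) / 2) / ((p : ℝ) - 1))

open Classical in
/-- the expected density of the values of size `v`: `∏_{p ≤ w v} (1 - ρ(p) / p) ∏_{w v < p ≤ v ^ θ} (1 - 1 / p)` -/
noncomputable def density (w : ℕ → ℝ) (θ : ℝ) (f : ℤ[X]) (v : ℕ) : ℝ :=
  (∏ p ∈ (Icc 1 ⌊w v⌋₊).filter Nat.Prime, (1 - (rho f p : ℝ) / p)) *
    ∏ p ∈ (Icc 1 ⌊(v : ℝ) ^ θ⌋₊).filter (fun p : ℕ => p.Prime ∧ w v < p), (1 - 1 / (p : ℝ))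

open L5helper86.UL

lemma density_MD (w : ℕ → ℝ) (θ : ℝ) (f : ℤ[X]) (v : ℕ) : density w θ f v = MD f ⌊w v⌋₊ ⌊(v : ℝ) ^ θ⌋₊ := by
  unfold density MD
  congr 1
  refine prod_congr ?_ fun _ _ => rfl
  ext p
  rw [mem_filter, mem_filter, L5helper2.BH.mem_pr, mem_Icc]
  constructor
  · rintro ⟨⟨_, h2⟩, h3, h4⟩
    exact ⟨⟨h2, h3⟩, (Nat.floor_lt' h3.ne_zero).2 h4⟩
  · rintro ⟨⟨h1, h2⟩, h3⟩
    exact ⟨⟨h2.one_lt.le, h1⟩, h2, (Nat.floor_lt' h2.ne_zero).1 h3⟩

lemma BM_eq (w : ℕ → ℝ) (θ : ℝ) (f : ℤ[X]) (u : ℤ) (H : ℕ) :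
    BM w θ f u H = ∑ m ∈ Ioc u (u + H), density w θ f (f.eval m).natAbs := by
  unfold BM
  exact sum_congr rfl fun m _ => (density_MD w θ f _).symm

lemma SR_iff {w : ℕ → ℝ} {θ : ℝ} {a : ℕ → ℕ} {n : ℤ} (hn : n ≠ 0) :
    SR w (fun v : ℕ => (v : ℝ) ^ θ) (fun _ => 0) a n ↔ InR w θ a n := by
  unfold SR InR
  simp only [Int.modEq_zero_iff_dvd]
  exact ⟨fun h => ⟨hn, h⟩, fun h => h.2⟩

lemma count_BC {w : ℕ → ℝ} {θ : ℝ} {a : ℕ → ℕ} {f : ℤ[X]} (hf : 0 < f.natDegree) (u : ℤ) (H : ℕ) :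
    |(count w θ a f u H : ℝ) - BC w θ a f u H| ≤ f.natDegree := by
  classical
  have h1 : (count w θ a f u H : ℝ) = ∑ m ∈ Ioc u (u + H), if InR w θ a (f.eval m) then (1 : ℝ) else 0 := by
    unfold count
    rw [← sum_filter, sum_const, nsmul_eq_mul, mul_one]
  have h2 : BC w θ a f u H = ∑ m ∈ Ioc u (u + H), if SR w (fun v : ℕ => (v : ℝ) ^ θ) (fun _ => 0) a (f.eval m)
      then (1 : ℝ) else 0 := by
    unfold BC
    rw [← sum_filter, sum_const, nsmul_eq_mul, mul_one]
  rw [h1, h2, ← sum_sub_distrib]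
  refine (abs_sum_le_sum_abs _ _).trans ?_
  calc _ ≤ ∑ m ∈ Ioc u (u + H), (if f.eval m = 0 then (1 : ℝ) else 0) := by
        refine sum_le_sum fun m _ => ?_
        by_cases h0 : f.eval m = 0
        · rw [if_pos h0]
          split_ifs <;> norm_num
        · rw [if_neg h0]
          by_cases h3 : InR w θ a (f.eval m)
          · rw [if_pos h3, if_pos ((SR_iff h0).2 h3)]
            norm_num
          · rw [if_neg h3, if_neg fun h => h3 ((SR_iff h0).1 h)]
            norm_num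
    _ = #((Ioc u (u + H)).filter fun m => f.eval m = 0) := by
        rw [← sum_filter, sum_const, nsmul_eq_mul, mul_one]
    _ ≤ f.natDegree := by exact_mod_cast fib_card hf _ 0

lemma partialBH_eq (f : ℤ[X]) : partialBH f = BH f := rfl

lemma partialC_eq (y : ℕ) : partialC y = partialBH (X ^ 2 + C 1) y := (BH_one y).symm

open Classical in
theorem result {Ω : Type} [MeasurableSpace Ω] (P : Measure Ω) [IsProbabilityMeasure P] (a : ℕ → Ω → ℕ)
    (hmeas : ∀ p, Measurable (a p)) (hind : iIndepFun (fun p : Nat.Primes => a p) P)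
    (hunif : ∀ p r : ℕ, p.Prime → r < p → P.real {ω | a p ω = r} = 1 / p)
    (θ : ℝ) (hθ : 0 < θ) (w : ℕ → ℝ) (hw : Monotone w) (hlow : ∀ᶠ n : ℕ in atTop, (Real.log n) ^ 5 ≤ w n)
    (hup : ∀ ε : ℝ, 0 < ε → ∀ᶠ n : ℕ in atTop, w n ≤ Real.exp (ε * Real.log n / Real.log (Real.log n))) :
    (∀ k : ℤ, ¬ IsSquare (-k) → ∃ c : ℝ, 0 < c ∧ Tendsto (partialBH (X ^ 2 + C k)) atTop (𝓝 c)) ∧
    ∃ c₁ : ℝ, 0 < c₁ ∧ Tendsto partialC atTop (𝓝 c₁) ∧ ∀ᵐ ω ∂P,
      Tendsto (fun x : ℕ => (#((Icc 1 x).filter fun r : ℕ => InR w θ (fun p => a p ω) (r : ℤ)) : ℝ) * (Real.log x / x)) atTop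
        (𝓝 (Real.exp (-Real.eulerMascheroniConstant) / θ)) ∧
      Tendsto (fun n : ℕ => (#((range (n + 1)).filter fun m => m ^ 2 + 1 ≤ n ∧
          InR w θ (fun p => a p ω) ((m ^ 2 + 1 : ℕ) : ℤ)) : ℝ) * (Real.log n / Real.sqrt n)) atTop
        (𝓝 (c₁ * (Real.exp (-Real.eulerMascheroniConstant) / θ))) ∧
      (∀ f : ℤ[X], 1 ≤ f.natDegree → ∀ c : ℝ, Tendsto (partialBH f) atTop (𝓝 c) → ∀ (B : ℕ) (ε : ℝ), 0 < ε →
        ∀ᶠ H : ℕ in atTop, ∀ u : ℕ, u ≤ H ^ B →
        |(count w θ (fun p => a p ω) f u H : ℝ) -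
          c * (Real.exp (-Real.eulerMascheroniConstant) / θ) / f.natDegree * (H / Real.log ((u : ℝ) + H))| ≤
          ε * (H / Real.log ((u : ℝ) + H))) ∧
      ∀ (D B : ℕ) (ε : ℝ), 0 < ε → ∀ᶠ N : ℕ in atTop, ∀ u : ℤ, |u| ≤ (N : ℤ) ^ B → ∀ f : ℤ[X], f.natDegree ≤ D →
        (∀ j, |f.coeff j| ≤ (N : ℤ) ^ B) →
        (∀ p : ℕ, p.Prime → (Real.log N) ^ 4 < p → ∃ j, 1 ≤ j ∧ ¬ (p : ℤ) ∣ f.coeff j) →
        |(count w θ (fun p => a p ω) f u N : ℝ) - ∑ m ∈ Ioc u (u + N), density w θ f (f.eval m).natAbs| ≤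
          ε * ∑ m ∈ Ioc u (u + N), density w θ f (f.eval m).natAbs + (N : ℝ) ^ (1 / 2 + ε) := by
  have hS : L5helper86.UL.Sys P a := ⟨inferInstance, hmeas, hind, hunif⟩
  refine ⟨fun k hk => ?_, ?_⟩
  · obtain ⟨c, hc, h⟩ := quad_conv k hk
    exact ⟨c, hc, h⟩
  have hns : ¬ IsSquare (-(1 : ℤ)) := by
    rintro ⟨r, hr⟩
    nlinarith [mul_self_nonneg r]
  obtain ⟨c₁, hc₁, hlim⟩ := quad_conv 1 hns
  refine ⟨c₁, hc₁, hlim.congr fun y => (partialC_eq y).symm, ?_⟩
  filter_upwards [set_density hS hθ hw hup, fixed_law hS hθ hw hlow hup, buni_law hS hθ hw hlow hup] with ω h1 h2 h3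
  have h2' : ∀ f : ℤ[X], 1 ≤ f.natDegree → ∀ c : ℝ, Tendsto (partialBH f) atTop (𝓝 c) → ∀ (B : ℕ) (ε : ℝ), 0 < ε →
        ∀ᶠ H : ℕ in atTop, ∀ u : ℕ, u ≤ H ^ B →
        |(count w θ (fun p => a p ω) f u H : ℝ) -
          c * (Real.exp (-Real.eulerMascheroniConstant) / θ) / f.natDegree * (H / Real.log ((u : ℝ) + H))| ≤
          ε * (H / Real.log ((u : ℝ) + H)) := by
    intro f hf c hc B ε hε
    filter_upwards [h2 f hf c hc B (ε / 2) (by positivity),
      small_sqrt B (K := f.natDegree) (show 0 < ε / 2 by positivity), eventually_ge_atTop 2,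
      logT.eventually_ge_atTop 1] with H h4 h5 h6 h7 u hu
    have h8 := h4 u hu
    have h9 := count_BC (w := w) (θ := θ) (a := fun p => a p ω) (by omega : 0 < f.natDegree) (u : ℤ) H
    have hH1 : (1 : ℝ) ≤ H := by exact_mod_cast (by omega : 1 ≤ H)
    have hH0 : (0 : ℝ) < H := by linarith
    have hu0 : (0 : ℝ) ≤ u := by positivity
    have hL : Real.log H ≤ Real.log ((u : ℝ) + H) := Real.log_le_log hH0 (by linarith)
    have hL0 : 0 < Real.log ((u : ℝ) + H) := by linarith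
    have hLu := log_up h6 hu
    have h10 : (f.natDegree : ℝ) ≤ ε / 2 * (H / Real.log ((u : ℝ) + H)) := by
      rw [mul_div_assoc', le_div_iff₀ hL0]
      have h11 : (1 : ℝ) ≤ (H : ℝ) ^ ((3 : ℝ) / 4) := Real.one_le_rpow hH1 (by norm_num)
      have h12 : (0 : ℝ) ≤ (f.natDegree : ℝ) * ((B : ℝ) + 2) * Real.log H := by
        have : 0 ≤ Real.log H := by linarith
        positivity
      calc (f.natDegree : ℝ) * Real.log ((u : ℝ) + H) ≤ f.natDegree * (((B : ℝ) + 2) * Real.log H) :=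
            mul_le_mul_of_nonneg_left hLu (by positivity)
        _ = (f.natDegree : ℝ) * ((B : ℝ) + 2) * Real.log H * 1 := by ring
        _ ≤ (f.natDegree : ℝ) * ((B : ℝ) + 2) * Real.log H * (H : ℝ) ^ ((3 : ℝ) / 4) :=
            mul_le_mul_of_nonneg_left h11 h12
        _ ≤ ε / 2 * H := h5
    rw [abs_le] at h8 h9 ⊢
    constructor <;> linarith [h8.1, h8.2, h9.1, h9.2]
  refine ⟨?_, ?_, h2', ?_⟩
  · -- the density of the set
    refine h1.congr fun x => ?_
    congr 1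
    unfold L5helper86.UL.CC
    norm_cast
    symm
    refine card_nbij' (fun r : ℕ => (r : ℤ)) (fun m : ℤ => m.toNat) ?_ ?_ ?_ ?_
    · intro r hr
      rw [mem_coe, mem_filter, mem_Icc] at hr
      rw [mem_coe, mem_filter, mem_Ioc]
      refine ⟨by push_cast; omega, fun i => ?_⟩
      have h0 : ((r : ℕ) : ℤ) ≠ 0 := by omega
      rw [sg_eval]
      exact (SR_iff h0).2 hr.2
    · intro m hm
      rw [mem_coe, mem_filter, mem_Ioc] at hm
      rw [mem_coe, mem_filter, mem_Icc]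
      have h5 := hm.2 0
      rw [sg_eval] at h5
      have h60 := hm.1.1
      have h61 := hm.1.2
      push_cast at h61
      have h6 : ((m.toNat : ℕ) : ℤ) = m := by omega
      have h7 : 1 ≤ m.toNat ∧ m.toNat ≤ x := by omega
      refine ⟨h7, ?_⟩
      show InR w θ (fun p => a p ω) ((m.toNat : ℕ) : ℤ)
      rw [h6, ← SR_iff (by omega)]
      exact h5
    · intro r _
      simp
    · intro m hm
      rw [mem_coe, mem_filter, mem_Ioc] at hm
      show ((m.toNat : ℕ) : ℤ) = m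
      omega
  · -- the question
    obtain ⟨κ, hκ⟩ : ∃ κ, κ = c₁ * (Real.exp (-Real.eulerMascheroniConstant) / θ) / 2 := ⟨_, rfl⟩
    have hκ0 : 0 < κ := by
      rw [hκ]
      have := div_pos (Real.exp_pos (-Real.eulerMascheroniConstant)) hθ
      positivity
    have h4 : Tendsto (fun H : ℕ => (count w θ (fun p => a p ω) (X ^ 2 + C 1) ((0 : ℕ) : ℤ) H : ℝ) * (Real.log H / H)) atTop
        (𝓝 κ) := by
      rw [Metric.tendsto_nhds]
      intro ε hε
      filter_upwards [h2' (X ^ 2 + C 1) (by rw [quad_deg]; norm_num) c₁ hlim 0 (ε / 2) (by positivity),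
        logT.eventually_ge_atTop 1, eventually_ge_atTop 1] with H h5 h6 h7
      have h8 := h5 0 (by simp)
      rw [quad_deg] at h8
      have hH0 : (0 : ℝ) < H := by exact_mod_cast h7
      have hl0 : 0 < Real.log H := by linarith
      simp only [Nat.cast_zero, zero_add, Nat.cast_ofNat] at h8
      rw [← hκ] at h8
      rw [Real.dist_eq]
      have e : (count w θ (fun p => a p ω) (X ^ 2 + C 1) ((0 : ℕ) : ℤ) H : ℝ) * (Real.log H / H) - κ =
          ((count w θ (fun p => a p ω) (X ^ 2 + C 1) ((0 : ℕ) : ℤ) H : ℝ) - κ * (H / Real.log H)) * (Real.log H / H) := by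
        field_simp
      rw [e, abs_mul, abs_of_pos (by positivity : 0 < Real.log H / H)]
      simp only [Nat.cast_zero]
      calc _ ≤ ε / 2 * (H / Real.log H) * (Real.log H / H) := mul_le_mul_of_nonneg_right h8 (by positivity)
        _ = ε / 2 := by field_simp
        _ < ε := by linarith
    have hH : Tendsto (fun n : ℕ => Nat.sqrt (n - 1)) atTop atTop := by
      rw [tendsto_atTop]
      intro b
      filter_upwards [eventually_ge_atTop (b ^ 2 + 1)] with n hn
      rw [Nat.le_sqrt']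
      omega
    have h5 := (h4.comp hH).mul sqrt_scale
    have h6 : Tendsto (fun n : ℕ => Real.log n / Real.sqrt n) atTop (𝓝 0) := by
      have h7 : Tendsto (fun x : ℝ => Real.log x / x ^ ((1 : ℝ) / 2)) atTop (𝓝 0) :=
        (isLittleO_log_rpow_atTop (r := (1 : ℝ) / 2) (by norm_num)).tendsto_div_nhds_zero
      refine (h7.comp tendsto_natCast_atTop_atTop).congr fun n => ?_
      simp only [Function.comp]
      rw [Real.sqrt_eq_rpow]
    have e1 : κ * 2 = c₁ * (Real.exp (-Real.eulerMascheroniConstant) / θ) := by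
      rw [hκ]
      ring
    rw [e1] at h5
    -- the difference of the two counts is at most one
    have h7 : ∀ᶠ n : ℕ in atTop, |(#((range (n + 1)).filter fun m => m ^ 2 + 1 ≤ n ∧
          InR w θ (fun p => a p ω) ((m ^ 2 + 1 : ℕ) : ℤ)) : ℝ) -
        (count w θ (fun p => a p ω) (X ^ 2 + C 1) ((0 : ℕ) : ℤ) (Nat.sqrt (n - 1)) : ℝ)| ≤ 1 := by
      filter_upwards [eventually_ge_atTop 1] with n hn
      have e2 : (range (n + 1)).filter (fun m => m ^ 2 + 1 ≤ n ∧ InR w θ (fun p => a p ω) ((m ^ 2 + 1 : ℕ) : ℤ)) =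
          (range (Nat.sqrt (n - 1) + 1)).filter fun m => InR w θ (fun p => a p ω) ((m ^ 2 + 1 : ℕ) : ℤ) := by
        ext m
        rw [mem_filter, mem_filter, mem_range, mem_range]
        have e3 : m < Nat.sqrt (n - 1) + 1 ↔ m ^ 2 + 1 ≤ n := by
          rw [Nat.lt_succ_iff, Nat.le_sqrt']
          omega
        rw [e3]
        constructor
        · rintro ⟨_, h8, h9⟩
          exact ⟨h8, h9⟩
        · rintro ⟨h8, h9⟩
          refine ⟨?_, h8, h9⟩
          nlinarith
      have e4 : count w θ (fun p => a p ω) (X ^ 2 + C 1) ((0 : ℕ) : ℤ) (Nat.sqrt (n - 1)) =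
          #((Ioc 0 (Nat.sqrt (n - 1))).filter fun m => InR w θ (fun p => a p ω) ((m ^ 2 + 1 : ℕ) : ℤ)) := by
        unfold count
        symm
        refine card_nbij' (fun r : ℕ => (r : ℤ)) (fun m : ℤ => m.toNat) ?_ ?_ ?_ ?_
        · intro r hr
          rw [mem_coe, mem_filter, mem_Ioc] at hr
          rw [mem_coe, mem_filter, mem_Ioc]
          refine ⟨by push_cast; omega, ?_⟩
          rw [eval_add, eval_pow, eval_X, eval_C]
          have h8 := hr.2
          push_cast at h8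
          exact h8
        · intro m hm
          rw [mem_coe, mem_filter, mem_Ioc] at hm
          rw [mem_coe, mem_filter, mem_Ioc]
          have h60 := hm.1.1
          have h61 := hm.1.2
          push_cast at h60 h61
          have h62 : ((m.toNat : ℕ) : ℤ) = m := by omega
          have h63 : 0 < m.toNat ∧ m.toNat ≤ Nat.sqrt (n - 1) := by omega
          refine ⟨h63, ?_⟩
          have h8 := hm.2
          rw [eval_add, eval_pow, eval_X, eval_C] at h8
          push_cast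
          rw [h62]
          exact h8
        · intro r _
          simp
        · intro m hm
          rw [mem_coe, mem_filter, mem_Ioc] at hm
          show ((m.toNat : ℕ) : ℤ) = m
          have h60 := hm.1.1
          push_cast at h60
          omega
      rw [e2, e4]
      have e5 : (range (Nat.sqrt (n - 1) + 1)) = insert 0 (Ioc 0 (Nat.sqrt (n - 1))) := by
        ext m
        rw [mem_range, mem_insert, mem_Ioc]
        omega
      rw [e5, filter_insert]
      split_ifs with h8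
      · rw [card_insert_of_notMem (by simp)]
        push_cast
        rw [add_sub_cancel_left, abs_one]
      · rw [sub_self, abs_zero]
        exact zero_le_one
    have h8 : Tendsto (fun n : ℕ => ((#((range (n + 1)).filter fun m => m ^ 2 + 1 ≤ n ∧
          InR w θ (fun p => a p ω) ((m ^ 2 + 1 : ℕ) : ℤ)) : ℝ) -
        (count w θ (fun p => a p ω) (X ^ 2 + C 1) ((0 : ℕ) : ℤ) (Nat.sqrt (n - 1)) : ℝ)) *
          (Real.log n / Real.sqrt n)) atTop (𝓝 0) := by
      rw [tendsto_zero_iff_abs_tendsto_zero]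
      refine tendsto_of_tendsto_of_tendsto_of_le_of_le' tendsto_const_nhds h6 (Eventually.of_forall fun n => abs_nonneg _) ?_
      filter_upwards [h7, eventually_ge_atTop 1] with n h9 h10
      have h11 : 0 ≤ Real.log n / Real.sqrt n :=
        div_nonneg (Real.log_nonneg (by exact_mod_cast h10)) (Real.sqrt_nonneg _)
      show |_ * (Real.log n / Real.sqrt n)| ≤ _
      rw [abs_mul, abs_of_nonneg h11]
      exact mul_le_of_le_one_left h11 h9
    have h9 := h5.add h8
    rw [add_zero] at h9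
    refine h9.congr' ?_
    have hH0 : ∀ᶠ n : ℕ in atTop, 2 ≤ Nat.sqrt (n - 1) := hH.eventually_ge_atTop 2
    filter_upwards [hH0] with n h10
    have h11 : (0 : ℝ) < (Nat.sqrt (n - 1) : ℕ) := by exact_mod_cast (by omega : 0 < Nat.sqrt (n - 1))
    have h12 : (0 : ℝ) < Real.log (Nat.sqrt (n - 1) : ℕ) := Real.log_pos (by exact_mod_cast (by omega : 1 < Nat.sqrt (n - 1)))
    simp only [Function.comp]
    have e6 : ∀ x y s l : ℝ, s ≠ 0 → l ≠ 0 → x * (l / s) * (y * (s / l)) = x * y := by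
      intro x y s l hs hl
      field_simp
    rw [e6 _ _ _ _ h11.ne' h12.ne']
    ring
  · intro D B ε hε
    have hpw : ∀ᶠ N : ℕ in atTop, (D : ℝ) + 1 ≤ (N : ℝ) ^ (ε / 2) :=
      ((tendsto_rpow_atTop (by positivity)).comp tendsto_natCast_atTop_atTop).eventually_ge_atTop _
    filter_upwards [h3 D B (ε / 2) (by positivity), hpw, eventually_ge_atTop 1] with N h4 h5 h6 u hu f hD hf hN
    have hN1 : (1 : ℝ) ≤ N := by exact_mod_cast h6
    have hN0 : (0 : ℝ) < N := by linarith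
    have hNC : ∀ p : ℕ, p.Prime → WW N < p → NC (cs f) p := by
      intro p hp hlt i c hcon
      have h7 : (Real.log N) ^ 4 < p := by
        have h8 : (Real.log N) ^ 4 ≤ (WW N : ℝ) := Nat.le_ceil _
        have h9 : (WW N : ℝ) < p := by exact_mod_cast hlt
        linarith
      obtain ⟨j, hj, hnd⟩ := hN p hp h7
      apply hnd
      have h8 := congrArg (fun g : (ZMod p)[X] => g.coeff j) hcon
      simp only [rd, cs, coeff_map, coeff_C] at h8
      rw [if_neg (by omega)] at h8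
      rw [← ZMod.intCast_zmod_eq_zero_iff_dvd]
      simpa using h8
    have h7 := h4 u hu f hD hf hNC
    have h8 := count_BC (w := w) (θ := θ) (a := fun p => a p ω) (NC_deg hNC) u N
    rw [← BM_eq]
    have h9 := BM_nonneg w θ f u N
    have h10 : (f.natDegree : ℝ) ≤ D := by exact_mod_cast hD
    have h11 : (N : ℝ) ^ (1 / 2 + ε) = (N : ℝ) ^ (1 / 2 + ε / 2) * (N : ℝ) ^ (ε / 2) := by
      rw [← Real.rpow_add hN0]
      congr 1
      ring
    have h12 : 1 ≤ (N : ℝ) ^ (1 / 2 + ε / 2) := Real.one_le_rpow hN1 (by positivity)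
    have h13 : (N : ℝ) ^ (1 / 2 + ε / 2) + D ≤ (N : ℝ) ^ (1 / 2 + ε) := by
      rw [h11]
      have hD0 : (0 : ℝ) ≤ D := by positivity
      have h14 : (N : ℝ) ^ (1 / 2 + ε / 2) * ((D : ℝ) + 1) ≤ (N : ℝ) ^ (1 / 2 + ε / 2) * (N : ℝ) ^ (ε / 2) :=
        mul_le_mul_of_nonneg_left h5 (by positivity)
      nlinarith
    have h14 : ε / 2 * BM w θ f u N ≤ ε * BM w θ f u N := mul_le_mul_of_nonneg_right (by linarith) h9
    have h15 := abs_sub_le (count w θ (fun p => a p ω) f u N : ℝ) (BC w θ (fun p => a p ω) f u N) (BM w θ f u N)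
    linarith

end Pool.Agent.Results.MP_f1a94e_nt.SemiRandomSieve
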